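import Mathlib

/-! Greedy times in a word made of four periodic classes of letters. -/

set_option autoImplicit false

namespace Pool.Agent.P.MP_02a1b3_co.Fn

open Finset

/-- Distinct points of a lattice in an interval. -/
theorem lattice {ι : Type} (S : Finset ι) (y : ι → ℤ) {D o lo hi : ℤ} (hD : 0 < D) (hl : lo ≤ hi)
    (hinj : Set.InjOn y S) (h : ∀ i ∈ S, D ∣ y i - o ∧ lo ≤ y i ∧ y i ≤ hi) :
    D * S.card ≤ hi - lo + D := by
  have h1 : S.card ≤ (Icc 0 ((hi - lo) / D)).card := by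
    refine card_le_card_of_injOn (fun i => (y i - lo) / D) (fun i hi' => ?_) fun i hi' j hj e => ?_
    · have := h i hi'
      exact mem_coe.2 (mem_Icc.2 ⟨Int.ediv_nonneg (by omega) hD.le,
        Int.ediv_le_ediv hD (by omega)⟩)
    · obtain ⟨a, ha⟩ := (h i hi').1
      obtain ⟨b, hb⟩ := (h j hj).1
      have e1 : y i - lo = o - lo + D * a := by omega
      have e2 : y j - lo = o - lo + D * b := by omega
      simp only [e1, e2, Int.add_mul_ediv_left _ _ hD.ne'] at e
      have : a = b := by omega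
      exact hinj hi' hj (by rw [this] at ha; omega)
  have h2 : 0 ≤ (hi - lo) / D := Int.ediv_nonneg (by omega) hD.le
  have h3 : (S.card : ℤ) ≤ (hi - lo) / D + 1 := by
    rw [Int.card_Icc] at h1
    omega
  have h4 := Int.mul_ediv_self_le (x := hi - lo) hD.ne'
  nlinarith

/-- Two times in the same class with the same period determine the same letter. -/
theorem same {m a b : ℕ} {D t o : ℤ} (hD : 0 < D) (ha : a < m) (hb : b < m)
    (h1 : m * D ∣ t - o - D * a) (h2 : m * D ∣ t - o - D * b) : a = b := by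
  have h3 : (m : ℤ) * D ∣ ((a : ℤ) - b) * D := by
    have := dvd_sub h2 h1
    rwa [show t - o - D * b - (t - o - D * a) = (a - b) * D by ring] at this
  have h4 := Int.eq_zero_of_abs_lt_dvd (Int.dvd_of_mul_dvd_mul_right hD.ne' h3)
    (abs_lt.2 ⟨by omega, by omega⟩)
  omega

/-- A run of the greedy embedding: step `i` takes the letter `ix i` of the class `c i`. -/
structure Run (n : ℕ) (m : Fin 4 → ℕ) (D o : Fin 4 → ℤ) (c : ℕ → Fin 4) (ix : ℕ → ℕ)
    (τ : ℕ → ℤ) : Prop where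
  pos : ∀ κ, 0 < D κ
  ev : ∀ κ, 2 ∣ D κ
  off : ∀ κ, o κ = if κ = 2 then 1 else 0
  zero : τ 0 = 0
  lt : ∀ i < n, ix i < m (c i)
  inj : ∀ i < n, ∀ j < n, c i = c j → ix i = ix j → i = j
  occ : ∀ i < n, m (c i) * D (c i) ∣ τ (i + 1) - o (c i) - D (c i) * ix i
  step : ∀ i < n, τ (i + 1) ≤ τ i + m (c i) * D (c i)

/-- The number of steps of class `κ` between `i` and `j`. -/
def cnt (c : ℕ → Fin 4) (κ : Fin 4) (i j : ℕ) : ℕ := ((Ico i j).filter fun l => c l = κ).card

theorem cnt_sum (c : ℕ → Fin 4) {i j : ℕ} (h : i ≤ j) :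
    (cnt c 0 i j : ℤ) + cnt c 1 i j + cnt c 2 i j + cnt c 3 i j = j - i := by
  have := card_eq_sum_card_fiberwise (f := c) (s := Ico i j) (t := univ) fun _ _ => mem_univ _
  rw [Fin.sum_univ_four, Nat.card_Ico] at this
  simp only [cnt]
  omega

namespace Run

variable {n : ℕ} {m : Fin 4 → ℕ} {D o : Fin 4 → ℤ} {c : ℕ → Fin 4} {ix : ℕ → ℕ} {τ : ℕ → ℤ}
  (R : Run n m D o c ix τ)
include R

theorem card_le {S : Finset ℕ} {κ : Fin 4} (h : ∀ i ∈ S, i < n ∧ c i = κ) : S.card ≤ m κ := by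
  rw [← card_range (m κ)]
  exact card_le_card_of_injOn ix
    (fun i hi => mem_coe.2 (mem_range.2 ((h i hi).2 ▸ R.lt i (h i hi).1)))
    fun i hi j hj e => R.inj i (h i hi).1 j (h j hj).1 ((h i hi).2.trans (h j hj).2.symm) e

theorem cnt_le (κ : Fin 4) {i j : ℕ} (hj : j ≤ n) : cnt c κ i j ≤ m κ :=
  R.card_le fun l hl => ⟨by have := mem_Ico.1 (mem_filter.1 hl).1; omega, (mem_filter.1 hl).2⟩

/-- Letters of one class that are taken at different steps sit at different places. -/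
theorem fresh (κ : Fin 4) {i j : ℕ} (hj : j ≤ n) {lo hi : ℤ} (hl : lo ≤ hi)
    (h : ∀ l, i ≤ l → l < j → c l = κ → lo ≤ τ (l + 1) - (l + 1 : ℕ) * (m κ * D κ) ∧
      τ (l + 1) - (l + 1 : ℕ) * (m κ * D κ) ≤ hi) : D κ * cnt c κ i j ≤ hi - lo + D κ := by
  have key : ∀ l ∈ (Ico i j).filter fun l => c l = κ, l < n ∧ c l = κ ∧ ix l < m κ ∧
      m κ * D κ ∣ τ (l + 1) - (l + 1 : ℕ) * (m κ * D κ) - o κ - D κ * ix l := fun l hl => by
    obtain ⟨h1, rfl⟩ := mem_filter.1 hl
    have h2 : l < n := by have := mem_Ico.1 h1; omega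
    refine ⟨h2, rfl, R.lt l h2, ?_⟩
    rw [sub_right_comm (τ (l + 1)), sub_right_comm (τ (l + 1) - o (c l))]
    exact dvd_sub (R.occ l h2) (dvd_mul_left _ _)
  refine lattice _ (fun l => τ (l + 1) - (l + 1 : ℕ) * (m κ * D κ)) (o := o κ) (R.pos κ) hl
    (fun a ha b hb e => ?_) fun l hl' => ⟨?_, ?_⟩
  · obtain ⟨a1, a2, a3, a4⟩ := key a ha
    obtain ⟨b1, b2, b3, b4⟩ := key b hb
    simp only at e
    rw [← e] at b4
    exact R.inj a a1 b b1 (a2.trans b2.symm) (same (R.pos κ) a3 b3 a4 b4)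
  · have := dvd_add ((dvd_mul_left _ _).trans (key l hl').2.2.2) (dvd_mul_right (D κ) (ix l))
    simpa using this
  · have := mem_Ico.1 (mem_filter.1 hl').1
    exact h l this.1 this.2 (mem_filter.1 hl').2

theorem strict {i : ℕ} (hi : i < n) (hc : c i = 2) : τ (i + 1) < τ i + m 2 * D 2 := by
  have h1 := R.step i hi
  have h2 := R.occ i hi
  have h3 := R.lt i hi
  rw [hc] at h1 h2 h3
  refine h1.lt_of_ne fun e => ?_
  have h4 : m 2 * D 2 ∣ τ i - o 2 - D 2 * ix i := by
    have := dvd_sub h2 dvd_rfl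
    rwa [e, show τ i + m 2 * D 2 - o 2 - D 2 * ix i - m 2 * D 2 = τ i - o 2 - D 2 * ix i by ring]
      at this
  have par : ∀ {κ : Fin 4} {t : ℤ} {a : ℕ}, m κ * D κ ∣ t - o κ - D κ * a → 2 ∣ t - o κ :=
    fun {κ t a} h => by
      simpa using dvd_add (((R.ev κ).mul_left _).trans h) ((R.ev κ).mul_right a)
  have h5 := par h4
  rw [R.off, if_pos rfl] at h5
  cases i with
  | zero => rw [R.zero] at h5; omega
  | succ i =>
    have h6 := R.occ i (by omega)
    have h7 := par h6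
    by_cases h8 : c i = 2
    · have h9 := R.lt i (by omega)
      rw [h8] at h6 h9
      have := R.inj i (by omega) (i + 1) hi (h8.trans hc.symm) (same (R.pos 2) h9 h3 h6 h4)
      omega
    · rw [R.off, if_neg h8] at h7
      omega

/-- In the frame of the first class the run never passes a slot of the slow class. -/
theorem ceil {P : ℤ} (h2 : m 2 * D 2 = P + D 2) (hle : ∀ κ, κ ≠ 2 → m κ * D κ ≤ P) {i j : ℕ}
    (hij : i ≤ j) (hj : j ≤ n) : τ j - j * P ≤ τ i - i * P + D 2 := by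
  have hD := R.pos 2
  have key : ∀ l : ℤ, τ i - i * P ≤ 1 + D 2 * l → τ j - j * P ≤ 1 + D 2 * l := fun l h => by
    induction j, hij using Nat.le_induction with
    | base => exact h
    | succ j hij ih =>
      have h3 := ih (by omega)
      push_cast
      by_cases hc : c j = 2
      · have h4 := R.strict hj hc
        have h5 := R.occ j hj
        rw [hc, R.off, if_pos rfl] at h5
        obtain ⟨t, ht⟩ := h5
        have h6 : τ (j + 1) - (j + 1) * P =
            1 + D 2 * (ix j + m 2 * t - (j + 1) * (m 2 - 1)) := by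
          have : P = (m 2 - 1) * D 2 := by linarith
          rw [this]; linarith
        generalize (ix j + m 2 * t - (j + 1) * (m 2 - 1) : ℤ) = s at h6
        have h7 : D 2 * s < D 2 * (l + 1) := by linarith
        have h8 := lt_of_mul_lt_mul_left h7 hD.le
        have h9 : D 2 * s ≤ D 2 * l := mul_le_mul_of_nonneg_left (by omega) hD.le
        linarith
      · have := R.step j hj
        have := hle _ hc
        linarith
  have h3 := Int.mul_ediv_self_le (x := τ i - i * P - 1) hD.ne'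
  have h4 := Int.lt_mul_ediv_self_add (x := τ i - i * P - 1) hD
  have h5 := key ((τ i - i * P - 1) / D 2 + 1) (by linarith)
  linarith

/-- The main estimate. -/
theorem bound {u k M E : ℤ} (h2 : m 2 * D 2 = m 0 * D 0 + D 2) (h1 : m 1 * D 1 = m 0 * D 0 - D 0)
    (h3 : m 3 * D 3 = m 1 * D 1 - u) (u0 : 0 ≤ u) (u1 : u ≤ D 1) (k1 : 1 ≤ k)
    (hk : k * D 0 ≤ (k - 1) * D 1)
    (hM : (k - 1) * D 1 + k * (D 0 * (m 2 + m 3 + 1) + 2 * D 2) ≤ M)
    (hE : u * (m 2 + m 3) + 2 * M + D 1 ≤ E) (hC : u * m 0 + E < m 3 * D 3 - D 3)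
    (hZ : cnt c 3 0 n = m 3) (hm : 0 < m 3) :
    τ n ≤ (n - 1) * (m 3 * D 3) + D 3 + u * m 0 + 2 * E := by
  have d0 := R.pos 0
  have d1 := R.pos 1
  have d2 := R.pos 2
  have m1 : ∀ {i j : ℕ}, i ≤ j → j ≤ n →
      τ j - j * (m 0 * D 0) ≤ τ i - i * (m 0 * D 0) + D 2 :=
    R.ceil h2 fun κ hκ => by
      fin_cases κ
      · exact le_rfl
      · show m 1 * D 1 ≤ _; linarith
      · exact absurd rfl hκ
      · show m 3 * D 3 ≤ _; linarith
  obtain ⟨q, hq⟩ : ∃ q : ℕ → ℤ, ∀ i, q i = τ i - i * (m 1 * D 1) := ⟨_, fun _ => rfl⟩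
  obtain ⟨r, hr⟩ : ∃ r : ℕ → ℤ, ∀ i, r i = τ i - i * (m 3 * D 3) := ⟨_, fun _ => rfl⟩
  have c2 : ∀ {i j : ℕ}, j ≤ n → (cnt c 2 i j : ℤ) + cnt c 3 i j ≤ m 2 + m 3 := fun hj =>
    add_le_add (mod_cast R.cnt_le 2 hj) (mod_cast R.cnt_le 3 hj)
  have r1 : ∀ {i j : ℕ}, i ≤ j → j ≤ n →
      q j - q i ≤ D 0 * cnt c 1 i j + (D 0 * (m 2 + m 3 + 1) + 2 * D 2) := fun {i j} hij hj => by
    have a := R.fresh 0 (i := i) hj (lo := τ j - j * (m 0 * D 0) - D 2)
      (hi := τ i - i * (m 0 * D 0) + D 2) (by linarith [m1 hij hj]) fun l a b _ =>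
        ⟨by linarith [m1 (show l + 1 ≤ j from b) hj], m1 (by omega) (by omega)⟩
    have b := congrArg (D 0 * ·) (cnt_sum c hij)
    have e := mul_le_mul_of_nonneg_left (c2 (i := i) hj) d0.le
    rw [hq, hq, h1]
    linarith
  have m2 : ∀ {i j : ℕ}, i ≤ j → j ≤ n → q j - q i ≤ M := by
    obtain ⟨p, hp, hmax⟩ := exists_max_image
      ((range (n + 1) ×ˢ range (n + 1)).filter fun p => p.1 ≤ p.2) (fun p => q p.2 - q p.1)
      ⟨(0, 0), by simp⟩
    have hmx : ∀ {i j : ℕ}, i ≤ j → j ≤ n → q j - q i ≤ q p.2 - q p.1 := fun {i j} hij hj =>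
      hmax (i, j) (by simp only [mem_filter, mem_product, mem_range]; omega)
    simp only [mem_filter, mem_product, mem_range] at hp
    have p2 : p.2 ≤ n := by omega
    have a := R.fresh 1 (i := p.1) p2 (lo := q p.1) (hi := q p.2)
      (by linarith [hmx le_rfl p2]) fun l a b _ => by
        rw [← hq]
        exact ⟨by linarith [hmx (show l + 1 ≤ p.2 from b) p2],
          by linarith [hmx (show p.1 ≤ l + 1 by omega) (by omega)]⟩
    have b := mul_le_mul_of_nonneg_left (r1 hp.2 p2) (show 0 ≤ k by omega)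
    have e := mul_le_mul_of_nonneg_right hk (Nat.cast_nonneg (cnt c 1 p.1 p.2))
    have f := mul_le_mul_of_nonneg_left a (show 0 ≤ k - 1 by omega)
    intro i j hij hj
    linarith [hmx hij hj]
  have r3 : ∀ {i j : ℕ}, i ≤ j → j ≤ n → r j - r i ≤ u * cnt c 0 i j + E := fun {i j} hij hj => by
    have a := R.fresh 1 (i := i) hj (lo := q j - M) (hi := q i + M)
      (by linarith [m2 hij hj, m2 le_rfl hj]) fun l a b _ => by
        rw [← hq]
        exact ⟨by linarith [m2 (show l + 1 ≤ j from b) hj],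
          by linarith [m2 (show i ≤ l + 1 by omega) (by omega)]⟩
    have b := congrArg (u * ·) (cnt_sum c hij)
    have e := mul_le_mul_of_nonneg_left (c2 (i := i) hj) u0
    have f := mul_le_mul_of_nonneg_right u1 (Nat.cast_nonneg (cnt c 1 i j))
    rw [hq, hq] at a
    rw [hr, hr, h3]
    linarith
  have hne : ((Ico 0 n).filter fun l => c l = 3).Nonempty := card_pos.1 (hm.trans_eq hZ.symm)
  obtain ⟨a, ha, amax⟩ := exists_max_image _ (fun l => r (l + 1)) hne
  obtain ⟨b, hb, bmin⟩ := exists_min_image _ (fun l => r (l + 1)) hne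
  have a1 : a + 1 ≤ n := (mem_Ico.1 (mem_filter.1 ha).1).2
  have b1 : b + 1 ≤ n := (mem_Ico.1 (mem_filter.1 hb).1).2
  have cov := R.fresh 3 (i := 0) le_rfl (lo := r (b + 1)) (hi := r (a + 1)) (amax b hb)
    fun l x y z => by
      rw [← hr]
      have : l ∈ (Ico 0 n).filter fun l => c l = 3 := mem_filter.2 ⟨mem_Ico.2 ⟨x, y⟩, z⟩
      exact ⟨bmin l this, amax l this⟩
  rw [hZ] at cov
  have hab : a + 1 ≤ b + 1 := by
    by_contra h
    have x := r3 (show b + 1 ≤ a + 1 by omega) a1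
    have y := mul_le_mul_of_nonneg_left
      (show (cnt c 0 (b + 1) (a + 1) : ℤ) ≤ m 0 from mod_cast R.cnt_le 0 a1) u0
    linarith
  have x := r3 (Nat.zero_le (a + 1)) a1
  have y := r3 b1 le_rfl
  have z : cnt c 0 0 (a + 1) + cnt c 0 (b + 1) n ≤ m 0 := by
    rw [cnt, cnt, ← card_union_of_disjoint (disjoint_left.2 fun l h h' => by
      have := mem_Ico.1 (mem_filter.1 h).1
      have := mem_Ico.1 (mem_filter.1 h').1
      omega)]
    refine R.card_le fun l hl => ?_
    simp only [mem_union, mem_filter, mem_Ico] at hl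
    exact ⟨by omega, by tauto⟩
  have w := mul_le_mul_of_nonneg_left
    (show (cnt c 0 0 (a + 1) : ℤ) + cnt c 0 (b + 1) n ≤ m 0 from mod_cast z) u0
  have e0 := hr 0
  have en := hr n
  rw [R.zero] at e0
  push_cast at e0
  linarith

end Run

end Pool.Agent.P.MP_02a1b3_co.Fn
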