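import Pool.Agent.P.MP_02a1b3_co.Fn.Core

/-! The word, its length, and the choice of the parameters. -/

set_option autoImplicit false

namespace Pool.Agent.P.MP_02a1b3_co.Fn

open Finset

theorem sub {α : Type} (L : ℕ → List α) (x : ℕ → α) (t : ℕ → ℕ) (n : ℕ)
    (h : ∀ i < n, t i < t (i + 1) ∧ x i ∈ L (t (i + 1) - 1)) :
    ((List.range n).map x).Sublist ((List.range (t n)).flatMap L) := by
  induction n with
  | zero => simp
  | succ n ih =>
    obtain ⟨h1, h2⟩ := h n (by omega)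
    obtain ⟨s, hs⟩ : ∃ s, t (n + 1) = s + 1 := ⟨t (n + 1) - 1, by omega⟩
    rw [hs, Nat.add_sub_cancel] at h2
    rw [hs, List.range_succ, List.range_succ, List.map_append, List.flatMap_append]
    refine List.Sublist.append ((ih fun i hi => h i (by omega)).trans
      ((List.range_sublist.2 (by omega)).flatMap L)) ?_
    simpa using h2

theorem ofFn_eq {n : ℕ} [NeZero n] (π : Equiv.Perm (Fin n)) :
    List.ofFn π = (List.range n).map fun i => π (Fin.ofNat n i) := by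
  refine List.ext_getElem (by simp) fun i h1 h2 => ?_
  have h3 : i < n := by simpa using h1
  simp only [List.getElem_ofFn, List.getElem_map, List.getElem_range]
  congr 1
  exact Fin.ext (Nat.mod_eq_of_lt h3).symm

theorem len_flat {α : Type} (L : ℕ → List α) (T : ℕ) :
    ((List.range T).flatMap L).length = ∑ t ∈ range T, (L t).length := by
  induction T with
  | zero => simp
  | succ T ih => rw [List.range_succ, List.flatMap_append, List.length_append, ih, sum_range_succ]; simp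

/-- The trivial word. -/
theorem triv (n : ℕ) : ∃ w : List (Fin n),
    (∀ π : Equiv.Perm (Fin n), (List.ofFn π).Sublist w) ∧ w.length = n * n := by
  refine ⟨(List.range n).flatMap fun _ => List.finRange n, fun π => ?_, by rw [len_flat]; simp⟩
  rcases Nat.eq_zero_or_pos n with rfl | h
  · simp
  · have : NeZero n := ⟨h.ne'⟩
    rw [ofFn_eq]
    exact sub _ _ id n fun i _ => ⟨Nat.lt_succ_self i, List.mem_finRange _⟩

/-- The word of four classes. -/
theorem word (n : ℕ) (m : Fin 4 → ℕ) (D : Fin 4 → ℤ) (T : ℤ) (hn : ∑ κ, m κ = n)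
    (hm : ∀ κ, 0 < m κ) (hD : ∀ κ, 0 < D κ) (ev : ∀ κ, 2 ∣ D κ) (hT0 : 0 ≤ T)
    (hT : ∀ o c ix τ, Run n m D o c ix τ → cnt c 3 0 n = m 3 → τ n ≤ T) :
    ∃ w : List (Fin n), (∀ π : Equiv.Perm (Fin n), (List.ofFn π).Sublist w) ∧
      (w.length : ℝ) ≤ ∑ κ, ((T : ℝ) / D κ + 1) := by
  classical
  have : NeZero n := ⟨by have := hm 0; rw [Fin.sum_univ_four] at hn; omega⟩
  let e : (Σ κ, Fin (m κ)) ≃ Fin n := Fintype.equivFinOfCardEq (by simp [hn])
  let c : Fin n → Fin 4 := fun y => (e.symm y).1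
  let ix : Fin n → ℕ := fun y => (e.symm y).2
  have hix : ∀ y, ix y < m (c y) := fun y => (e.symm y).2.2
  have hinj : ∀ y y', c y = c y' → ix y = ix y' → y = y' := fun y y' h1 h2 =>
    e.symm.injective (Sigma.ext h1 ((Fin.heq_ext_iff (congrArg m h1)).2 h2))
  let o : Fin 4 → ℤ := fun κ => if κ = 2 then 1 else 0
  let S : ℕ → Finset (Fin n) := fun t =>
    univ.filter fun y => m (c y) * D (c y) ∣ (t : ℤ) + 1 - o (c y) - D (c y) * ix y
  refine ⟨(List.range T.toNat).flatMap fun t => (S t).toList, fun π => ?_, ?_⟩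
  · let x : ℕ → Fin n := fun i => π (Fin.ofNat n i)
    have xi : ∀ i < n, ∀ j < n, x i = x j → i = j := fun i hi j hj h => by
      have := congrArg Fin.val (π.injective h)
      rwa [Fin.val_ofNat, Fin.val_ofNat, Nat.mod_eq_of_lt hi, Nat.mod_eq_of_lt hj] at this
    let τ : ℕ → ℤ := fun i => Nat.rec 0 (fun i t => t + 1 +
      (o (c (x i)) + D (c (x i)) * ix (x i) - t - 1) % (m (c (x i)) * D (c (x i)))) i
    have hs : ∀ i, τ i < τ (i + 1) ∧ τ (i + 1) ≤ τ i + m (c (x i)) * D (c (x i)) ∧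
        m (c (x i)) * D (c (x i)) ∣ τ (i + 1) - o (c (x i)) - D (c (x i)) * ix (x i) := fun i => by
      have h1 : τ (i + 1) = τ i + 1 +
        (o (c (x i)) + D (c (x i)) * ix (x i) - τ i - 1) % (m (c (x i)) * D (c (x i))) := rfl
      have h2 : (0 : ℤ) < m (c (x i)) * D (c (x i)) := mul_pos (mod_cast hm _) (hD _)
      generalize (m (c (x i)) * D (c (x i)) : ℤ) = Q at h1 h2
      generalize hz : o (c (x i)) + D (c (x i)) * ix (x i) - τ i - 1 = z at h1
      have h3 := Int.emod_nonneg z h2.ne'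
      have h4 := Int.emod_lt_of_pos z h2
      refine ⟨by omega, by omega, -(z / Q), ?_⟩
      have := Int.emod_add_mul_ediv z Q
      linarith
    have h0 : ∀ i, 0 ≤ τ i := fun i => by
      induction i with
      | zero => exact le_rfl
      | succ i ih => exact ih.trans (hs i).1.le
    have hR : Run n m D o (fun i => c (x i)) (fun i => ix (x i)) τ :=
      ⟨hD, ev, fun _ => rfl, rfl, fun i _ => hix _,
        fun i hi j hj h1 h2 => xi i hi j hj (hinj _ _ h1 h2), fun i _ => (hs i).2.2,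
        fun i _ => (hs i).2.1⟩
    have hZ : cnt (fun i => c (x i)) 3 0 n = m 3 := by
      refine le_antisymm (hR.cnt_le 3 le_rfl) ?_
      rw [← Fintype.card_fin (m 3), ← card_univ]
      refine card_le_card_of_injOn (fun j => (π.symm (e ⟨3, j⟩)).val) (fun j _ => ?_)
        fun j _ j' _ h => ?_
      · simp [x, c]
      · have := e.injective (π.symm.injective (Fin.ext h))
        simpa using this
    have hle := hT _ _ _ _ hR hZ
    rw [ofFn_eq]
    refine (sub _ x (fun i => (τ i).toNat) n fun i _ => ?_).trans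
      ((List.range_sublist.2 (Int.toNat_le_toNat hle)).flatMap _)
    have a := h0 i
    obtain ⟨b, -, d⟩ := hs i
    refine ⟨by omega, mem_toList.2 (mem_filter.2 ⟨mem_univ _, ?_⟩)⟩
    rwa [show (((τ (i + 1)).toNat - 1 : ℕ) : ℤ) + 1 = τ (i + 1) by omega]
  · have h1 : ∀ t, (S t).card ≤ (univ.filter fun κ => D κ ∣ (t : ℤ) + 1 - o κ).card := fun t =>
      card_le_card_of_injOn c (fun y hy => by
        have := dvd_add ((dvd_mul_left _ _).trans (mem_filter.1 hy).2) (dvd_mul_right (D (c y)) (ix y : ℤ))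
        simpa using this) fun y hy y' hy' h => hinj y y' h (by
          have a := (mem_filter.1 hy').2
          rw [← h] at a
          exact same (hD _) (hix y) (h ▸ hix y') (mem_filter.1 hy).2 a)
    have h2 : ((List.range T.toNat).flatMap fun t => (S t).toList).length ≤
        ∑ κ, ((range T.toNat).filter fun t : ℕ => D κ ∣ (t : ℤ) + 1 - o κ).card := by
      rw [len_flat]
      simp only [length_toList]
      refine (sum_le_sum fun t _ => h1 t).trans_eq ?_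
      simp only [card_filter]
      exact sum_comm
    refine le_trans (Nat.cast_le.2 h2) ?_
    push_cast
    refine sum_le_sum fun κ _ => ?_
    have h3 := lattice ((range T.toNat).filter fun t : ℕ => D κ ∣ (t : ℤ) + 1 - o κ)
      (fun t => (t : ℤ) + 1) (o := o κ) (lo := 0) (hi := T) (hD κ) hT0
      (fun a _ b _ h => by simpa using h) fun t ht => ⟨(mem_filter.1 ht).2, by omega, by
        have := mem_range.1 (mem_filter.1 ht).1
        omega⟩
    have h4 : (0 : ℝ) < D κ := mod_cast hD κ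
    rw [div_add_one h4.ne', le_div_iff₀' h4]
    rw [sub_zero] at h3
    exact_mod_cast h3

/-- The length for given parameters, in units of the first spacing. -/
theorem num {n a f s k T : ℝ} (hk : 3 ≤ k) (hn : n = a + f + 2 * s + 1) (hs : 0 < s)
    (hf : 0 < f) (ha : 2 * s + 2 ≤ a) (h1 : f ≤ a - 1) (h2 : (k - 2) * (a - 1) ≤ k * f)
    (hT : T ≤ (n - 1) * (a - 2 + 1 / k) + (1 + 2 / k) * a) :
    T / 1 + 1 + (T / ((a - 1) / f) + 1) + (T / (a / s) + 1) + (T / ((a - 2 + 1 / k) / s) + 1) ≤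
      n ^ 2 - 4 * n + 9 + 6 * (n / k) := by
  obtain ⟨e, he⟩ : ∃ e, e = 1 / k := ⟨_, rfl⟩
  have e0 : 0 < e := by rw [he]; positivity
  have e1 : e * k = 1 := by rw [he]; field_simp
  have e2 : e ≤ 1 / 3 := by nlinarith
  rw [show 2 / k = 2 * e by rw [he]; ring, ← he] at hT
  rw [show n / k = n * e by rw [he]; ring, ← he]
  have a1 : 0 < a - 1 := by linarith
  have a2 : 0 < a - 2 + e := by linarith
  have a0 : 0 < a := by linarith
  obtain ⟨φ, hφ⟩ : ∃ φ, φ = f / (a - 1) := ⟨_, rfl⟩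
  obtain ⟨γ, hγ⟩ : ∃ γ, γ = s / a := ⟨_, rfl⟩
  obtain ⟨ζ, hζ⟩ : ∃ ζ, ζ = s / (a - 2 + e) := ⟨_, rfl⟩
  rw [div_one, div_div_eq_mul_div, div_div_eq_mul_div, div_div_eq_mul_div, mul_div_assoc,
    mul_div_assoc, mul_div_assoc, ← hφ, ← hγ, ← hζ]
  have p1 : φ * (a - 1) = f := by rw [hφ]; field_simp
  have p2 : γ * a = s := by rw [hγ]; field_simp
  have p3 : ζ * (a - 2 + e) = s := by rw [hζ]; field_simp
  have q1 : 0 < φ := by rw [hφ]; positivity
  have q2 : 0 < γ := by rw [hγ]; positivity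
  have q3 : 0 < ζ := by rw [hζ]; positivity
  have r1 : φ ≤ 1 := by rw [hφ, div_le_one a1]; exact h1
  have r2 : 1 - 2 * e ≤ φ := by
    rw [hφ, le_div_iff₀ a1]
    have := mul_le_mul_of_nonneg_left h2 e0.le
    calc (1 - 2 * e) * (a - 1) = e * ((k - 2) * (a - 1)) := by
          rw [← mul_assoc, mul_sub e, e1, mul_comm e]
      _ ≤ e * (k * f) := this
      _ = f := by rw [← mul_assoc, e1, one_mul]
  have r3 : ζ ≤ 1 / 2 := by rw [hζ, div_le_iff₀ a2]; linarith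
  have s1 : (a - 2 + e) * (1 + φ + γ + ζ) ≤ n - 4 + 4 * e := by nlinarith
  have s2 : a * (1 + φ + γ + ζ) ≤ n + 1 := by nlinarith
  have t1 := mul_le_mul_of_nonneg_right hT (show 0 ≤ 1 + φ + γ + ζ by positivity)
  have t2 := mul_le_mul_of_nonneg_left s1 (show 0 ≤ n - 1 by linarith)
  have t3 := mul_le_mul_of_nonneg_left s2 (show 0 ≤ 1 + 2 * e by positivity)
  nlinarith

theorem int1 {a f s k : ℤ} (k3 : 3 ≤ k) (s0 : s = 10 * k ^ 2) (a0 : 100 * k ^ 4 ≤ a)
    (h1 : k * f ≤ (k - 1) * (a - 1)) (h2 : (k - 2) * (a - 1) ≤ k * f) :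
    2 * s + 2 ≤ a ∧ 0 < s ∧ 0 < f ∧ f ≤ a - 1 ∧ a - 1 ≤ 3 * f ∧
      2 * (k * (2 * s + 6 + 2 * k * (2 * s + 5))) ≤ a := by
  have k0 : 0 < k := by linarith
  have k1 : 3 * k ≤ k ^ 2 := by nlinarith
  have k2 : 3 * k ^ 2 ≤ k ^ 3 := by nlinarith
  have k4 : 3 * k ^ 3 ≤ k ^ 4 := by nlinarith
  have as : 2 * s + 2 ≤ a := by linarith
  have a1 : 0 ≤ a - 1 := by linarith
  have f3 : a - 1 ≤ 3 * f := le_of_mul_le_mul_left (by
    have := mul_le_mul_of_nonneg_right k3 a1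
    linarith) k0
  refine ⟨as, by linarith, by linarith, le_of_mul_le_mul_left (by linarith) k0, f3, ?_⟩
  rw [s0]
  linarith

theorem int2 {n a f s k d0 d1 d2 d3 u : ℤ} (k3 : 3 ≤ k) (s0 : s = 10 * k ^ 2) (f0 : 0 < f)
    (f3 : a - 1 ≤ 3 * f) (b5 : 2 * (k * (2 * s + 6 + 2 * k * (2 * s + 5))) ≤ a) (a0 : 0 ≤ a)
    (h1 : k * f ≤ (k - 1) * (a - 1)) (p0 : 0 < d0) (p1 : 0 < d1) (p2 : 0 < d2) (p3 : 0 < d3)
    (g1 : f * d1 = (a - 1) * d0) (g2 : s * d2 = a * d0) (g3 : s * d3 = (a - 1) * d0 - u)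
    (g4 : k * u = (k - 1) * d0) :
    ∃ M E, 0 ≤ u ∧ u ≤ d1 ∧ k * d0 ≤ (k - 1) * d1 ∧
      (k - 1) * d1 + k * (d0 * (s + 1 + s + 1) + 2 * d2) ≤ M ∧
      u * (s + 1 + s) + 2 * M + d1 ≤ E ∧ u * a + E < s * d3 - d3 ∧ 0 ≤ E ∧
      k * (s * d3) = (k * (a - 2) + 1) * d0 ∧
      k * ((n - 1) * (s * d3) + d3 + u * a + 2 * E) ≤
        ((n - 1) * (k * (a - 2) + 1) + (k + 2) * a) * d0 := by
  have k0 : 0 < k := by linarith
  have s1 : 0 < s := by rw [s0]; positivity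
  have z := mul_pos k0 p0
  have v := mul_pos k0 p3
  have u0 : 0 ≤ u := le_of_mul_le_mul_left (by
    have := mul_le_mul_of_nonneg_right k3 p0.le
    linarith) k0
  have u1 : u ≤ d0 := le_of_mul_le_mul_left (by linarith) k0
  have b0 : k * d0 ≤ (k - 1) * d1 := le_of_mul_le_mul_left (by
    linear_combination mul_le_mul_of_nonneg_right h1 p0.le - (k - 1) * g1) f0
  have b1 : d0 ≤ d1 := le_of_mul_le_mul_left (by linarith) k0
  have b2 : d1 ≤ 3 * d0 := le_of_mul_le_mul_left (by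
    linear_combination mul_le_mul_of_nonneg_right f3 p0.le + g1) f0
  obtain ⟨M, hM⟩ : ∃ M : ℤ, M = k * (d0 * (2 * s + 5) + 2 * d2) := ⟨_, rfl⟩
  obtain ⟨E, hE⟩ : ∃ E : ℤ, E = d0 * (2 * s + 4) + 2 * M := ⟨_, rfl⟩
  have b3 : d3 ≤ d2 := le_of_mul_le_mul_left (by linarith) s1
  have b4 : 2 * (k * (4 * k * d2 + d3)) ≤ a * d0 := by
    have x := mul_le_mul_of_nonneg_left b3 k0.le
    have y := mul_le_mul_of_nonneg_left k3 (mul_pos p2 k0).le
    have := mul_pos p2 k0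
    rw [← g2, s0]
    linarith
  have b6 : k * (E + d3 + 2 * d0) ≤ a * d0 := by
    have := mul_le_mul_of_nonneg_right b5 p0.le
    rw [hE, hM]
    linarith
  have x : k * (s * d3) = (k * (a - 2) + 1) * d0 := by linear_combination k * g3 - g4
  refine ⟨M, E, u0, u1.trans b1, b0, ?_, ?_, lt_of_mul_lt_mul_left (a := k) ?_ k0.le, ?_, x, ?_⟩
  · linear_combination mul_le_mul_of_nonneg_left b2 k0.le - hM + p1.le
  · have := mul_le_mul_of_nonneg_right u1 (show 0 ≤ s + 1 + s by linarith)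
    linarith
  · linear_combination a * g4 - x + b6 + p0
  · rw [hE, hM]; positivity
  · linear_combination (n - 1) * x + mul_le_mul_of_nonneg_right u1 (mul_nonneg k0.le a0) +
      2 * b6 + 4 * z.le + v.le

theorem int3 {a f s k : ℤ} (k3 : 3 ≤ k) (s1 : 0 < s) (f0 : 0 < f) (as : 2 * s + 2 ≤ a) :
    ∃ d0 d1 d2 d3 u : ℤ, 0 < d0 ∧ 0 < d1 ∧ 0 < d2 ∧ 0 < d3 ∧ 2 ∣ d0 ∧ 2 ∣ d1 ∧ 2 ∣ d2 ∧ 2 ∣ d3 ∧
      f * d1 = (a - 1) * d0 ∧ s * d2 = a * d0 ∧ s * d3 = (a - 1) * d0 - u ∧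
      k * u = (k - 1) * d0 := by
  have k0 : 0 < k := by linarith
  have a0 : 0 < a := by linarith
  have a1 : 0 < a - 1 := by linarith
  have a2 : 0 < a - 2 := by linarith
  exact ⟨2 * (f * s * s * k), 2 * (s * s * k * (a - 1)), 2 * (f * s * k * a),
    2 * (f * s * (k * (a - 2) + 1)), 2 * (f * s * s * (k - 1)), by positivity, by positivity,
    by positivity, by positivity, dvd_mul_right _ _, dvd_mul_right _ _, dvd_mul_right _ _,
    dvd_mul_right _ _, by ring, by ring, by ring, by ring⟩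

theorem real1 {n a f s k T d0 d1 d2 d3 : ℝ} (hk : 3 ≤ k) (hn : n = a + f + 2 * s + 1) (hs : 0 < s)
    (hf : 0 < f) (ha : 2 * s + 2 ≤ a) (h1 : f ≤ a - 1) (h2 : (k - 2) * (a - 1) ≤ k * f)
    (p0 : 0 < d0) (g1 : f * d1 = (a - 1) * d0) (g2 : s * d2 = a * d0)
    (g3 : k * (s * d3) = (k * (a - 2) + 1) * d0)
    (hT : k * T ≤ ((n - 1) * (k * (a - 2) + 1) + (k + 2) * a) * d0) :
    T / d0 + 1 + (T / d1 + 1) + (T / d2 + 1) + (T / d3 + 1) ≤ n ^ 2 - 4 * n + 9 + 6 * (n / k) := by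
  have k0 : 0 < k := by linarith
  refine le_trans (le_of_eq ?_) (num (T := T / d0) hk hn hs hf ha h1 h2 ?_)
  · have x1 : d1 = d0 * ((a - 1) / f) := by field_simp; linarith
    have x2 : d2 = d0 * (a / s) := by field_simp; linarith
    have x3 : d3 = d0 * ((a - 2 + 1 / k) / s) := by field_simp; linarith
    rw [div_one, div_div, div_div, div_div, ← x1, ← x2, ← x3]
  · rw [div_le_iff₀ p0]
    refine le_of_mul_le_mul_left (hT.trans_eq ?_) k0
    field_simp

theorem par (n a f k : ℕ) (hk : 3 ≤ k) (hn : n = a + f + 2 * (10 * k ^ 2) + 1)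
    (ha : 100 * k ^ 4 ≤ a) (h1 : (k : ℤ) * f ≤ (k - 1) * (a - 1))
    (h2 : ((k : ℤ) - 2) * (a - 1) ≤ k * f) :
    ∃ w : List (Fin n), (∀ π : Equiv.Perm (Fin n), (List.ofFn π).Sublist w) ∧
      (w.length : ℝ) ≤ n ^ 2 - 4 * n + 9 + 6 * (n / k) := by
  obtain ⟨s, hs⟩ : ∃ s, s = 10 * k ^ 2 := ⟨_, rfl⟩
  rw [← hs] at hn
  have k3 : (3 : ℤ) ≤ k := mod_cast hk
  have s0 : (s : ℤ) = 10 * k ^ 2 := mod_cast hs
  obtain ⟨as, s1, f0, f1, f3, b5⟩ := int1 k3 s0 (mod_cast ha) h1 h2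
  obtain ⟨d0, d1, d2, d3, u, p0, p1, p2, p3, e0, e1, e2, e3, g1, g2, g3, g4⟩ := int3 k3 s1 f0 as
  obtain ⟨M, E, u0, u1, b0, hM, hE, hC, E0, g5, kT⟩ := int2 (n := n) k3 s0 f0 f3 b5
    a.cast_nonneg h1 p0 p1 p2 p3 g1 g2 g3 g4
  have n1 : (0 : ℤ) ≤ n - 1 := by omega
  obtain ⟨w, w1, w2⟩ := word n ![a, f, s + 1, s] ![d0, d1, d2, d3]
    ((n - 1) * (s * d3) + d3 + u * a + 2 * E)
    (by rw [Fin.sum_univ_four]; show a + f + (s + 1) + s = n; omega)
    (fun κ => by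
      fin_cases κ
      · show 0 < a; omega
      · show 0 < f; omega
      · exact s.succ_pos
      · show 0 < s; omega)
    (fun κ => by fin_cases κ; exacts [p0, p1, p2, p3])
    (fun κ => by fin_cases κ; exacts [e0, e1, e2, e3]) (by positivity)
    fun o c ix τ R hZ => R.bound (u := u) (k := k) (M := M) (E := E)
      (show (s + 1 : ℤ) * d2 = a * d0 + d2 by linarith) (show f * d1 = a * d0 - d0 by linarith)
      (show s * d3 = f * d1 - u by linarith) u0 u1 (by linarith) b0 hM hE hC hZ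
      (show 0 < s by omega)
  refine ⟨w, w1, w2.trans ?_⟩
  generalize (n - 1) * (s * d3) + d3 + u * a + 2 * E = T at kT
  rw [Fin.sum_univ_four]
  exact real1 (a := a) (f := f) (s := s) (d0 := d0) (d1 := d1) (d2 := d2) (d3 := d3)
    (mod_cast hk) (by rw [hn]; push_cast; ring) (mod_cast s1) (mod_cast f0) (mod_cast as)
    (mod_cast f1) (mod_cast h2) (mod_cast p0) (mod_cast g1) (mod_cast g2) (mod_cast g5)
    (mod_cast kT)

theorem final (n : ℕ) : ∃ w : List (Fin n),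
    (∀ π : Equiv.Perm (Fin n), (List.ofFn π).Sublist w) ∧
      (w.length : ℝ) ≤ (n : ℝ) ^ 2 - 4 * n + 48 * (n : ℝ) ^ (3 / 4 : ℝ) := by
  obtain ⟨x, hx⟩ : ∃ x : ℝ, x = (n : ℝ) ^ (1 / 4 : ℝ) := ⟨_, rfl⟩
  have x0 : 0 ≤ x := by rw [hx]; positivity
  have x4 : (n : ℝ) = x ^ 4 := by
    rw [hx, ← Real.rpow_natCast, ← Real.rpow_mul n.cast_nonneg]; norm_num
  have x3 : (n : ℝ) ^ (3 / 4 : ℝ) = x ^ 3 := by
    rw [hx, ← Real.rpow_natCast, ← Real.rpow_mul n.cast_nonneg]; norm_num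
  rw [x3]
  have y3 : 0 ≤ x ^ 3 := by positivity
  rcases le_or_gt x 12 with h | h
  · obtain ⟨w, w1, w2⟩ := triv n
    refine ⟨w, w1, ?_⟩
    rw [w2]
    push_cast
    nlinarith [mul_le_mul_of_nonneg_left h y3]
  obtain ⟨k, hk⟩ : ∃ k, k = ⌊x / 4⌋₊ := ⟨_, rfl⟩
  have k3 : 3 ≤ k := hk ▸ Nat.le_floor (by push_cast; linarith)
  have k1 : (k : ℝ) ≤ x / 4 := hk ▸ Nat.floor_le (by positivity)
  have k2 : x / 4 < k + 1 := hk ▸ Nat.lt_floor_add_one _
  have K3 : (3 : ℝ) ≤ k := mod_cast k3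
  have k4 : 256 * k ^ 4 ≤ n := by
    have : (4 * k : ℝ) ^ 4 ≤ x ^ 4 := by gcongr; linarith
    rw [← x4] at this
    have : (256 * k ^ 4 : ℝ) ≤ n := by linarith
    exact_mod_cast this
  have k5 : 9 * k ^ 2 ≤ k ^ 4 := by nlinarith [Nat.mul_le_mul k3 k3]
  have k6 : 3 * k ≤ k ^ 2 := by nlinarith
  obtain ⟨j, rfl⟩ : ∃ j, k = j + 1 := ⟨k - 1, by omega⟩
  obtain ⟨r, hr⟩ : ∃ r, n = r + 2 * (10 * (j + 1) ^ 2) + 2 := ⟨n - 20 * (j + 1) ^ 2 - 2, by omega⟩
  have f1 := Nat.mul_div_le (j * r) (2 * j + 1)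
  have f2 := Nat.lt_mul_div_succ (j * r) (show 0 < 2 * j + 1 by omega)
  generalize j * r / (2 * j + 1) = f at f1 f2
  have f3 : 2 * f ≤ r := by
    by_contra hc
    nlinarith
  obtain ⟨b, rfl⟩ : ∃ b, r = b + f := ⟨r - f, by omega⟩
  obtain ⟨w, w1, w2⟩ := par n (b + 1) f (j + 1) k3 (by omega) (by omega)
    (by zify at f1; push_cast; linarith) (by
      have f4 : 4 * (j + 1) ≤ b + f := by omega
      zify at f2 f4 k3
      push_cast
      refine le_of_mul_le_mul_left (a := 2 * (j : ℤ) + 1) ?_ (by positivity)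
      nlinarith)
  refine ⟨w, w1, w2.trans ?_⟩
  have z : (n : ℝ) / (j + 1 : ℕ) ≤ 16 / 3 * x ^ 3 := by
    rw [div_le_iff₀ (by linarith), x4]
    nlinarith [mul_le_mul_of_nonneg_left (show x ≤ 16 / 3 * (j + 1 : ℕ) by linarith) y3]
  have : 1 ≤ x ^ 3 := one_le_pow₀ (by linarith)
  linarith

end Pool.Agent.P.MP_02a1b3_co.Fn
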